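import Pool.Agent.V1132.CN.Mod
import Pool.Agent.TH6.PF.KSt
import Pool.Agent.TH6.PF.KMod

set_option autoImplicit false

/-! For a field `K` and a torsion-free group `G` the least operator norm of the support pattern of
the presentation matrices of a finitely generated projective `KG`-module is `0` if the module is
free and exactly `3 / √2` otherwise. Every finitely presented module over the group ring of any
group over any ring has presentations with pattern norm arbitrarily close to `3 / √2`. -/

namespace Pool.Agent.Results.MP_1a2884_al.CriticalPattern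

open TH57.Thr TH6.PF Pool.Agent.V1132.CN

/-- `P` has a presentation matrix whose support pattern has norm at most `c`. -/
def HasPres (R : Type) [Ring R] (G : Type) [Group G] (P : Type) [AddCommGroup P]
    [Module (MonoidAlgebra R G) P] (c : ℝ) : Prop :=
  ∃ (m n : ℕ) (A : Matrix (Fin m) (Fin n) (MonoidAlgebra R G)),
    ThinLE A c ∧ Nonempty (P ≃ₗ[MonoidAlgebra R G] Coker A)

/-- The least norm of the support pattern of a presentation matrix of `P` itself. -/
noncomputable def presNorm (R : Type) [Ring R] (G : Type) [Group G] (P : Type) [AddCommGroup P]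
    [Module (MonoidAlgebra R G) P] : ℝ :=
  sInf {c : ℝ | 0 ≤ c ∧ HasPres R G P c}

/-- The least norm of the support pattern of a presentation matrix of a module stably isomorphic
to `P`. -/
noncomputable def classNorm (R : Type) [Ring R] (G : Type) [Group G] (P : Type) [AddCommGroup P]
    [Module (MonoidAlgebra R G) P] : ℝ :=
  sInf {c : ℝ | 0 ≤ c ∧ ∃ (m n : ℕ) (A : Matrix (Fin m) (Fin n) (MonoidAlgebra R G)),
    ThinLE A c ∧ StablyIso (MonoidAlgebra R G) P (Coker A)}

/-- All finitely generated projective `S`-modules are stably free. -/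
def AllStablyFree (S : Type) [Ring S] : Prop :=
  ∀ (P : Type) [AddCommGroup P] [Module S P], Module.Finite S P → Module.Projective S P →
    StablyFree S P

/-- All projective `RG`-modules with a presentation matrix of pattern norm at most `c` are stably
free. -/
def ThinStablyFree (R : Type) [Ring R] (G : Type) [Group G] (c : ℝ) : Prop :=
  ∀ (m n : ℕ) (A : Matrix (Fin m) (Fin n) (MonoidAlgebra R G)), ThinLE A c →
    Module.Projective (MonoidAlgebra R G) (Coker A) → StablyFree (MonoidAlgebra R G) (Coker A)

theorem one_lt_thr : (1 : ℝ) < 3 / Real.sqrt 2 := by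
  by_contra h
  push Not at h
  have h2 : (3 / Real.sqrt 2) ^ 2 ≤ 1 ^ 2 := pow_le_pow_left₀ thr_pos.le h 2
  rw [thr_sq] at h2
  norm_num at h2

theorem thin_mono {R : Type} [Ring R] {G : Type} [Group G] {m n : ℕ}
    (A : Matrix (Fin m) (Fin n) (MonoidAlgebra R G)) (c d : ℝ) (h0 : 0 ≤ c) (h : c ≤ d)
    (hA : ThinLE A c) : ThinLE A d := fun x =>
  (hA x).trans (mul_le_mul_of_nonneg_right (pow_le_pow_left₀ h0 h 2) (by
      unfold normSq
      exact Finset.sum_nonneg fun _ _ => Finset.sum_nonneg fun _ _ => sq_nonneg _))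

theorem below (K : Type) [Field K] (G : Type) [Group G]
    (htf : ∀ g : G, ∀ k : ℕ, 0 < k → g ^ k = 1 → g = 1)
    (m n : ℕ) (A : Matrix (Fin m) (Fin n) (MonoidAlgebra K G))
    (hP : Module.Projective (MonoidAlgebra K G) (Coker A))
    (c : ℝ) (hc0 : 0 ≤ c) (hc : c < 3 / Real.sqrt 2) (hA : ThinLE A c) :
    Module.Free (MonoidAlgebra K G) (Coker A) :=
  thin_free K G htf (Coker A) hP m n A (LinearEquiv.refl _ _) (max c 1)
    (lt_max_of_lt_right one_pos) (sq_lt_of_lt (le_max_of_le_left hc0) (max_lt hc one_lt_thr))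
    (thin_mono A c _ hc0 (le_max_left _ _) hA)

theorem free_pres (K : Type) [Field K] (G : Type) [Group G] (P : Type) [AddCommGroup P]
    [Module (MonoidAlgebra K G) P] (hfin : Module.Finite (MonoidAlgebra K G) P)
    (hfree : Module.Free (MonoidAlgebra K G) P) :
    ∃ n : ℕ, Nonempty (P ≃ₗ[MonoidAlgebra K G] (Fin n → MonoidAlgebra K G)) := by
  have b := Module.Free.chooseBasis (MonoidAlgebra K G) P
  have hf : Finite (Module.Free.ChooseBasisIndex (MonoidAlgebra K G) P) :=
    Module.Finite.finite_basis b
  have := Fintype.ofFinite (Module.Free.ChooseBasisIndex (MonoidAlgebra K G) P)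
  exact ⟨Fintype.card (Module.Free.ChooseBasisIndex (MonoidAlgebra K G) P),
    ⟨(b.reindex (Fintype.equivFin _)).equivFun⟩⟩

theorem thin_zero (R : Type) [Ring R] (G : Type) [Group G] (n : ℕ) :
    ThinLE (0 : Matrix (Fin 0) (Fin n) (MonoidAlgebra R G)) 0 := by
  intro x
  have h1 : x = 0 := Subsingleton.elim _ _
  subst h1
  simp [normSq, Matrix.zero_vecMul]

theorem coker_zero (S : Type) [Ring S] (n : ℕ) :
    Nonempty ((Fin n → S) ≃ₗ[S] Coker (0 : Matrix (Fin 0) (Fin n) S)) := by
  have h : LinearMap.range (0 : Matrix (Fin 0) (Fin n) S).vecMulLinear = ⊥ := by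
    rw [eq_bot_iff]
    rintro _ ⟨x, rfl⟩
    rw [Matrix.vecMulLinear_apply, Matrix.vecMul_zero]
    exact zero_mem _
  exact ⟨(Submodule.quotEquivOfEqBot _ h).symm⟩

theorem result :
    -- every ring, every group, every finitely presented module
    (∀ (R : Type) [Ring R] (G : Type) [Group G] (P : Type) [AddCommGroup P]
      [Module (MonoidAlgebra R G) P], Module.FinitePresentation (MonoidAlgebra R G) P →
        0 ≤ classNorm R G P ∧ classNorm R G P ≤ presNorm R G P ∧
        presNorm R G P ≤ 3 / Real.sqrt 2 ∧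
        (∀ c : ℝ, 3 / Real.sqrt 2 < c → HasPres R G P c) ∧
        (presNorm R G P ≠ 3 / Real.sqrt 2 → VCSum R G P)) ∧
    -- fields, torsion-free groups, projective modules: the two dichotomies
    (∀ (K : Type) [Field K] (G : Type) [Group G],
      (∀ g : G, ∀ k : ℕ, 0 < k → g ^ k = 1 → g = 1) →
      ∀ (P : Type) [AddCommGroup P] [Module (MonoidAlgebra K G) P],
        Module.Finite (MonoidAlgebra K G) P → Module.Projective (MonoidAlgebra K G) P →
        ((Module.Free (MonoidAlgebra K G) P ∧ presNorm K G P = 0) ∨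
          (¬ Module.Free (MonoidAlgebra K G) P ∧ presNorm K G P = 3 / Real.sqrt 2)) ∧
        ((StablyFree (MonoidAlgebra K G) P ∧ classNorm K G P = 0) ∨
          (¬ StablyFree (MonoidAlgebra K G) P ∧ classNorm K G P = 3 / Real.sqrt 2))) ∧
    -- above `3 / √2` a bound on the pattern is no restriction (every ring, every group)
    (∀ (R : Type) [Ring R] (G : Type) [Group G] (c : ℝ), 3 / Real.sqrt 2 < c →
      (AllStablyFree (MonoidAlgebra R G) ↔ ThinStablyFree R G c)) := by
  have above : ∀ (R : Type) [Ring R] (G : Type) [Group G] (P : Type) [AddCommGroup P]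
      [Module (MonoidAlgebra R G) P], Module.FinitePresentation (MonoidAlgebra R G) P →
      ∀ c : ℝ, 3 / Real.sqrt 2 < c → HasPres R G P c := by
    intro R _ G _ P _ _ hP c hc
    exact thin_pres P hP c (sq_gt_of_gt hc).2
  refine ⟨?_, ?_, ?_⟩
  · intro R _ G _ P _ _ hP
    have hne : {c : ℝ | 0 ≤ c ∧ HasPres R G P c}.Nonempty := by
      obtain ⟨m, n, A, h1, h2⟩ := above R G P hP (3 / Real.sqrt 2 + 1) (by linarith)
      exact ⟨3 / Real.sqrt 2 + 1, by linarith [thr_pos], m, n, A, h1, h2⟩
    have hle : presNorm R G P ≤ 3 / Real.sqrt 2 := by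
      refine sInf_le_thr (fun c hc => hc.1) _ fun c hc => ?_
      obtain ⟨m, n, A, h1, h2⟩ := above R G P hP c hc
      exact ⟨(sq_gt_of_gt hc).1.le, m, n, A, h1, h2⟩
    refine ⟨Real.sInf_nonneg fun c hc => hc.1, ?_, hle, above R G P hP, fun hlt => ?_⟩
    · apply csInf_le_csInf ⟨0, fun c hc => hc.1⟩ hne
      rintro c ⟨h0, m, n, A, h1, ⟨h2⟩⟩
      exact ⟨h0, m, n, A, h1, stablyIso_of_equiv h2⟩
    · obtain ⟨c, ⟨h0, m, n, A, h1, ⟨h2⟩⟩, hc⟩ := exists_lt_of_csInf_lt hne
        (lt_of_le_of_ne hle hlt)
      exact thin_VCSum R G P m n A h2 (max c 1) (lt_max_of_lt_right one_pos)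
        (sq_lt_of_lt (le_max_of_le_left h0) (max_lt hc one_lt_thr))
        (thin_mono A c _ h0 (le_max_left _ _) h1)
  · intro K _ G _ htf P _ _ hfin hproj
    have hfp : Module.FinitePresentation (MonoidAlgebra K G) P :=
      Module.finitePresentation_of_projective _ _
    constructor
    · by_cases h : Module.Free (MonoidAlgebra K G) P
      · refine Or.inl ⟨h, sInf_zero (fun c hc => hc.1) ?_⟩
        obtain ⟨n, ⟨e⟩⟩ := free_pres K G P hfin h
        obtain ⟨f⟩ := coker_zero (MonoidAlgebra K G) n
        exact ⟨le_rfl, 0, n, 0, thin_zero K G n, ⟨e.trans f⟩⟩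
      · refine Or.inr ⟨h, sInf_thr (fun c hc => hc.1) _ (fun c hc => ?_) ?_⟩
        · obtain ⟨m, n, A, h1, h2⟩ := above K G P hfp c hc
          exact ⟨(sq_gt_of_gt hc).1.le, m, n, A, h1, h2⟩
        · rintro c ⟨h0, m, n, A, h1, ⟨h2⟩⟩
          by_contra hlt
          have h3 := below K G htf m n A (Module.Projective.of_equiv h2) c h0 (not_le.1 hlt) h1
          exact h (Module.Free.of_equiv h2.symm)
    · by_cases h : StablyFree (MonoidAlgebra K G) P
      · refine Or.inl ⟨h, sInf_zero (fun c hc => hc.1) ?_⟩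
        obtain ⟨n, m, ⟨e⟩⟩ := h
        obtain ⟨f⟩ := coker_zero (MonoidAlgebra K G) m
        refine ⟨le_rfl, 0, m, 0, thin_zero K G m, ?_⟩
        have h1 : StablyIso (MonoidAlgebra K G) P (Fin m → MonoidAlgebra K G) := by
          let f : (Fin m → MonoidAlgebra K G) ≃ₗ[MonoidAlgebra K G]
              ((Fin m → MonoidAlgebra K G) × (Fin 0 → MonoidAlgebra K G)) :=
            { toFun := fun x => (x, 0)
              map_add' := fun x y => Prod.ext rfl (Subsingleton.elim _ _)
              map_smul' := fun a x => Prod.ext rfl (Subsingleton.elim _ _)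
              invFun := fun y => y.1
              left_inv := fun x => rfl
              right_inv := fun y => Prod.ext rfl (Subsingleton.elim _ _) }
          exact ⟨n, 0, ⟨e.trans f⟩⟩
        obtain ⟨a, b, ⟨g⟩⟩ := h1
        exact ⟨a, b, ⟨g.trans (f.prodCongr (LinearEquiv.refl _ _))⟩⟩
      · refine Or.inr ⟨h, sInf_thr (fun c hc => hc.1) _ (fun c hc => ?_) ?_⟩
        · obtain ⟨m, n, A, h1, ⟨h2⟩⟩ := above K G P hfp c hc
          exact ⟨(sq_gt_of_gt hc).1.le, m, n, A, h1, stablyIso_of_equiv h2⟩
        · rintro c ⟨h0, m, n, A, h1, h2⟩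
          by_contra hlt
          have h3 := below K G htf m n A (h2.projective hproj) c h0 (not_le.1 hlt) h1
          obtain ⟨r, ⟨e⟩⟩ := free_pres K G (Coker A) inferInstance h3
          apply h
          apply h2.stablyFree
          let f : ((Fin r → MonoidAlgebra K G) × (Fin 0 → MonoidAlgebra K G))
              ≃ₗ[MonoidAlgebra K G] (Fin r → MonoidAlgebra K G) :=
            { toFun := fun y => y.1
              map_add' := fun x y => rfl
              map_smul' := fun a x => rfl
              invFun := fun x => (x, 0)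
              left_inv := fun y => Prod.ext rfl (Subsingleton.elim _ _)
              right_inv := fun y => rfl }
          exact ⟨0, r, ⟨(e.prodCongr (LinearEquiv.refl _ _)).trans f⟩⟩
  · intro R _ G _ c hc
    constructor
    · intro h m n A _ hproj
      exact h (Coker A) inferInstance hproj
    · intro h P _ _ hfin hproj
      have hfp : Module.FinitePresentation (MonoidAlgebra R G) P :=
        Module.finitePresentation_of_projective _ _
      obtain ⟨m, n, A, h1, ⟨h2⟩⟩ := above R G P hfp c hc
      exact (stablyIso_of_equiv h2).stablyFree (h m n A h1 (Module.Projective.of_equiv h2))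

end Pool.Agent.Results.MP_1a2884_al.CriticalPattern
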