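import Pool.Agent.V11187.DT.Ext

set_option autoImplicit false

/-!
# Traces of projective modules over `A[π / [R, R]]`, `π` acting on a tree

Let the group `π` act by automorphisms (with or without inversions) on a tree and let `R` be a normal
subgroup of `π`. The condition `TreeFn π R` says that the elements of `R` which fix a vertex have
finite order, and that every element `x` which fixes a vertex and has infinite order modulo `R` has a
function `l : π / R → ℤ` which is additive on the centraliser of `x` and does not vanish at `x`. It
holds for **every** normal subgroup `R` if the stabilizers of the vertices are torsion groups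
(fundamental groups of graphs of torsion groups, for instance amalgamated products of torsion groups,
or virtually free groups). Nothing is assumed about `π / R` otherwise.

* If `TreeFn π R` holds, then it holds for `[R, R]` (and hence for all the derived subgroups of
`R`), and every element of infinite order of `π / [R, R]` has infinite order in the abelianisation of
its centraliser, which is seen by an integer valued function.
* Let `h` be an element of a group `H` and `f` a homomorphism from `H` to `π / [R, R]` with
`TreeFn π R`, such that `f h` has infinite order. There is `n > 0`, which depends only on `h`, such that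
`n` kills the Hattori-Stallings trace in `A / [A, A]` at `h` of every idempotent matrix over
`A[H]`, for every ring `A`.
* Extensions: let `TrP A G` mean that the traces at the elements of infinite order of the idempotent
matrices over `A[G]` are torsion elements of `A / [A, A]`. Let `K` be a normal subgroup of `H`
with `TrP A (H / K)`. Suppose that for all `h` in `H` of infinite order and all `k` in `K` the elements
`h` and `h k` are conjugate in `H`, or one of them is detected: for every finitely generated
subgroup `H0` containing it there is a homomorphism from `H0` to a group `π / [R, R]` with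
`TreeFn π R` for which its image has infinite order. Then `TrP A H`. In particular `TrP A H` holds if
all elements of infinite order of `H` are detected.
* If `A / [A, A]` is torsion-free and `H` is a torsion-free group with `TrP A H`, then every idempotent
matrix over `A[H]` has the same Hattori-Stallings trace as its augmentation over `A`.
* `TrP A (π / [R, R])` holds for every ring `A`, every group `π` acting on a tree with torsion
stabilizers and every normal subgroup `R` of `π`; the same holds for the groups `H` with all finitely
generated subgroups embedding in such quotients.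
-/

namespace Pool.Agent.Results.MP_1a2884_al.TreeTraces

open Pool.Agent.Y75.DT (HH cl hs aug)
open Pool.Agent.Y75.BF (InfOrd)
open Pool.Agent.V11187.DT (Fn TreeFn DetF TrP)

universe u w

theorem result :
    (∀ (π : Type) [Group π] (R : Subgroup π) [R.Normal], TreeFn π R →
      TreeFn π ⁅R, R⁆ ∧ ∀ g : π ⧸ ⁅R, R⁆, InfOrd g → Fn (π ⧸ ⁅R, R⁆) g) ∧
    (∀ (H : Type w) [Group H] (h : H) (π : Type) [Group π] (R : Subgroup π) [R.Normal]
      (f : H →* π ⧸ ⁅R, R⁆), TreeFn π R → InfOrd (f h) →
      ∃ n : ℕ, 0 < n ∧ ∀ (A : Type u) [Ring A] (k : ℕ)
        (e : Matrix (Fin k) (Fin k) (MonoidAlgebra A H)), e * e = e → n • hs e h = 0) ∧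
    (∀ (A : Type u) [Ring A] (H : Type w) [Group H] (K : Subgroup H) [K.Normal],
      (∀ h k : H, k ∈ K → InfOrd h → IsConj h (h * k) ∨ DetF H h ∨ DetF H (h * k)) →
      TrP A (H ⧸ K) → TrP A H) ∧
    (∀ (A : Type u) [Ring A] (H : Type w) [Group H], (∀ h : H, InfOrd h → DetF H h) → TrP A H) ∧
    (∀ (A : Type u) [Ring A] (H : Type w) [Group H],
      (∀ (n : ℕ) (x : HH A), 0 < n → n • x = 0 → x = 0) → (∀ h : H, h ≠ 1 → InfOrd h) →
      TrP A H → ∀ (k : ℕ) (e : Matrix (Fin k) (Fin k) (MonoidAlgebra A H)), e * e = e →
        (∀ h, h ≠ 1 → hs e h = 0) ∧ hs e 1 = ∑ i, cl A (aug (e i i))) ∧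
    (∀ (A : Type u) [Ring A] (H : Type w) [Group H],
      (∀ (H0 : Subgroup H), H0.FG → ∃ (π V : Type) (_ : Group π) (_ : MulAction π V)
        (Tr : SimpleGraph V) (R : Subgroup π) (_ : R.Normal) (s : H0 →* π ⧸ ⁅R, R⁆), Tr.IsTree ∧
        (∀ (g : π) (u v : V), Tr.Adj u v → Tr.Adj (g • u) (g • v)) ∧
        (∀ (v : V) (x : π), x • v = v → IsOfFinOrder x) ∧
        ∀ h : H0, InfOrd h → InfOrd (s h)) → TrP A H) := by
  refine ⟨?_, ?_, ?_, ?_, ?_, ?_⟩
  · intro π _ R _ h
    refine ⟨?_, Pool.Agent.V11187.DT.fn_tree π R h⟩
    obtain ⟨V, hV, Tr, hT, hadj, hst⟩ := id h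
    refine ⟨V, hV, Tr, hT, hadj, fun v x hx => ⟨fun hR => ?_, fun hi => ?_⟩⟩
    · exact (hst v x hx).1 (Subgroup.commutator_le_right R R hR)
    · exact Pool.Agent.V11187.DT.fn_tree π R h _ hi
  · intro H _ h π _ R _ f hT hf
    exact Pool.Agent.V11187.DT.nsmul_fn.{u} ((Pool.Agent.V11187.DT.fn_tree π R hT _ hf).comap f)
  · intro A _ H _ K _ hK hQ
    apply Pool.Agent.V11187.DT.trP_ext K _ hQ
    intro h k hk hh h1 h2
    rcases hK h k hk hh with h3 | h3 | h3
    · exact h3
    · exact absurd h3.loc h1
    · exact absurd h3.loc h2
  · intro A _ H _ hH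
    exact Pool.Agent.V11187.DT.trP_detect fun h hh => (hH h hh).loc
  · intro A _ H _ hA hH hP k e he
    exact Pool.Agent.V11187.DT.hs_torsionFree hH hA hP k e he
  · intro A _ H _ hH
    apply Pool.Agent.V11187.DT.trP_detect
    intro h hh
    apply Pool.Agent.V11187.DT.DetF.loc
    intro H0 hH0 hh0
    obtain ⟨π, V, _, _, Tr, R, _, s, hT, hadj, htor, hs⟩ := hH H0 hH0
    refine ⟨π, inferInstance, R, inferInstance, s, ?_, hs ⟨h, hh0⟩ ?_⟩
    · refine ⟨V, inferInstance, Tr, hT, hadj, fun v x hx => ⟨fun _ hi => ?_, fun hi => ?_⟩⟩
      · exact (Pool.Agent.V11187.BT.infOrd_iff x).mp hi (htor v x hx)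
      · exact absurd ((QuotientGroup.mk' R).isOfFinOrder (htor v x hx))
          ((Pool.Agent.V11187.BT.infOrd_iff _).mp hi)
    · intro n hn h1
      exact hh n hn (congrArg Subtype.val h1)

end Pool.Agent.Results.MP_1a2884_al.TreeTraces
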